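import Mathlib

set_option autoImplicit false

open Filter Topology Set

namespace Pool.Agent.Results.MP_3f847c_gt.WeightExceedsNetwork

/-- Scattered continuity: every nonempty subset `A` has a point of continuity of `f|A`. -/
def ScatteredlyContinuous {X : Type} [TopologicalSpace X] (f : X → ℝ) : Prop :=
  ∀ A : Set X, A.Nonempty → ∃ a ∈ A, ContinuousWithinAt f A a

/-- A network of a space: for every point `z` and open `U` containing it some member `S` of the
network satisfies `z ∈ S ⊆ U`. -/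
def IsNetwork {Z : Type} [TopologicalSpace Z] (N : Set (Set Z)) : Prop :=
  ∀ (z : Z) (U : Set Z), IsOpen U → z ∈ U → ∃ S ∈ N, z ∈ S ∧ S ⊆ U

/-- The network weight (at least `ℵ₀`). -/
noncomputable def nw (Z : Type) [TopologicalSpace Z] : Cardinal :=
  max Cardinal.aleph0 (sInf {c | ∃ N : Set (Set Z), IsNetwork N ∧ Cardinal.mk N = c})

/-- The weight (at least `ℵ₀`). -/
noncomputable def weight (Z : Type) [TopologicalSpace Z] : Cardinal :=
  max Cardinal.aleph0
    (sInf {c | ∃ B : Set (Set Z), TopologicalSpace.IsTopologicalBasis B ∧ Cardinal.mk B = c})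

/-- Nonnegative functions with total mass at most one. -/
def Mass (ι : Type) : Set (ι → ℝ) :=
  {h | (∀ i, 0 ≤ h i) ∧ ∀ F : Finset ι, ∑ i ∈ F, h i ≤ 1}

theorem Mass.le_one {ι : Type} {h : ι → ℝ} (hh : h ∈ Mass ι) (i : ι) : h i ≤ 1 := by
  have := hh.2 {i}
  simpa using this

theorem convex_Mass (ι : Type) : Convex ℝ (Mass ι) := by
  intro h hh k hk a b ha hb hab
  refine ⟨fun i => ?_, fun F => ?_⟩
  · have h1 := hh.1 i
    have h2 := hk.1 i
    show 0 ≤ a * h i + b * k i
    positivity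
  · have h1 := hh.2 F
    have h2 := hk.2 F
    have h3 : ∑ i ∈ F, (a • h + b • k) i = a * ∑ i ∈ F, h i + b * ∑ i ∈ F, k i := by
      rw [Finset.mul_sum, Finset.mul_sum, ← Finset.sum_add_distrib]
      rfl
    rw [h3]
    nlinarith

theorem isCompact_Mass (ι : Type) : IsCompact (Mass ι) := by
  have h1 : IsCompact (Set.pi univ (fun _ : ι => Icc (0 : ℝ) 1)) :=
    isCompact_univ_pi (fun _ => isCompact_Icc)
  have h2 : Mass ι = (Set.pi univ (fun _ : ι => Icc (0 : ℝ) 1)) ∩
      ⋂ F : Finset ι, {h : ι → ℝ | ∑ i ∈ F, h i ≤ 1} := by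
    ext h
    constructor
    · intro hh
      refine ⟨fun i _ => ⟨hh.1 i, Mass.le_one hh i⟩, ?_⟩
      exact mem_iInter.mpr hh.2
    · rintro ⟨h3, h4⟩
      exact ⟨fun i => (h3 i (mem_univ i)).1, fun F => mem_iInter.mp h4 F⟩
  rw [h2]
  refine h1.inter_right (isClosed_iInter fun F => ?_)
  exact isClosed_le (continuous_finsetSum _ (fun i _ => continuous_apply i)) continuous_const

theorem finite_large {ι : Type} {h : ι → ℝ} (hh : h ∈ Mass ι) {c : ℝ} (hc : 0 < c) :
    {i | c < h i}.Finite := by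
  by_contra hinf
  have hinf' : {i | c < h i}.Infinite := hinf
  obtain ⟨n, hn⟩ := exists_nat_gt (1 / c)
  obtain ⟨F, hF, hFc⟩ := hinf'.exists_subset_card_eq n
  have h1 : (n : ℝ) * c ≤ ∑ i ∈ F, h i := by
    rw [← hFc, ← nsmul_eq_mul]
    exact Finset.card_nsmul_le_sum _ _ _ (fun i hi => (hF hi).le)
  have h2 := hh.2 F
  rw [div_lt_iff₀ hc] at hn
  linarith

theorem countable_support {ι : Type} {h : ι → ℝ} (hh : h ∈ Mass ι) : {i | h i ≠ 0}.Countable := by
  have h1 : {i | h i ≠ 0} ⊆ ⋃ n : ℕ, {i | 1 / ((n : ℝ) + 1) < h i} := by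
    intro i hi
    have h2 : 0 < h i := lt_of_le_of_ne (hh.1 i) (Ne.symm hi)
    obtain ⟨n, hn⟩ := exists_nat_one_div_lt h2
    exact mem_iUnion.mpr ⟨n, hn⟩
  refine (countable_iUnion fun n : ℕ => ?_).mono h1
  exact (finite_large hh (by positivity)).countable

/-- The unit mass at a point. -/
noncomputable def unitMass {ι : Type} (i : ι) : ι → ℝ := by
  classical exact fun j => if j = i then 1 else 0

theorem unitMass_self {ι : Type} (i : ι) : unitMass i i = 1 := by simp [unitMass]
theorem unitMass_ne {ι : Type} {i j : ι} (h : j ≠ i) : unitMass i j = 0 := by simp [unitMass, h]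

theorem unitMass_mem {ι : Type} (i : ι) : unitMass i ∈ Mass ι := by
  classical
  refine ⟨fun j => ?_, fun F => ?_⟩
  · by_cases h : j = i
    · rw [h, unitMass_self]; exact zero_le_one
    · rw [unitMass_ne h]
  · unfold unitMass
    rw [Finset.sum_ite_eq' F i]
    split_ifs
    · exact le_rfl
    · exact zero_le_one

/-- A base of the space of masses has at least as many members as there are points. -/
theorem card_le_weight (ι : Type) : Cardinal.mk ι ≤ weight (Mass ι) := by
  refine le_trans ?_ (le_max_right _ _)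
  refine le_csInf ⟨_, _, TopologicalSpace.isTopologicalBasis_opens, rfl⟩ ?_
  rintro _ ⟨B, hB, rfl⟩
  have hex : ∀ i : ι, ∃ V : B, (⟨unitMass i, unitMass_mem i⟩ : Mass ι) ∈ (V : Set (Mass ι)) ∧
      (V : Set (Mass ι)) ⊆ {h : Mass ι | (1 / 2 : ℝ) < (h : ι → ℝ) i} := by
    intro i
    have hO : IsOpen {h : Mass ι | (1 / 2 : ℝ) < (h : ι → ℝ) i} :=
      isOpen_lt continuous_const ((continuous_apply i).comp continuous_subtype_val)
    have hi : (⟨unitMass i, unitMass_mem i⟩ : Mass ι) ∈
        {h : Mass ι | (1 / 2 : ℝ) < (h : ι → ℝ) i} := by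
      show (1 / 2 : ℝ) < unitMass i i
      rw [unitMass_self]
      norm_num
    obtain ⟨V, hV, hiV, hVU⟩ := hB.exists_subset_of_mem_open hi hO
    exact ⟨⟨V, hV⟩, hiV, hVU⟩
  choose V hV1 hV2 using hex
  refine Cardinal.mk_le_of_injective (f := V) ?_
  intro i j hij
  by_contra hne
  have h1 := hV1 i
  rw [hij] at h1
  have h2 : (1 / 2 : ℝ) < unitMass i j := hV2 j h1
  rw [unitMass_ne (Ne.symm hne)] at h2
  norm_num at h2

/-- A function with countable support on a space whose countable sets are closed is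
scatteredly continuous. -/
theorem sc_of_countable_support {X : Type} [TopologicalSpace X]
    (hX : ∀ S : Set X, S.Countable → IsClosed S) {f : X → ℝ} (hf : {x | f x ≠ 0}.Countable) :
    ScatteredlyContinuous f := by
  intro A hA
  by_cases hex : ∃ a ∈ A, f a = 0
  · obtain ⟨a, ha, ha0⟩ := hex
    refine ⟨a, ha, ContinuousAt.continuousWithinAt ?_⟩
    have hO : IsOpen {x | f x ≠ 0}ᶜ := (hX _ hf).isOpen_compl
    have h2 : f =ᶠ[𝓝 a] fun _ => (0 : ℝ) := by
      filter_upwards [hO.mem_nhds (show a ∈ {x | f x ≠ 0}ᶜ from fun h => h ha0)] with z hz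
      exact not_not.mp hz
    exact continuousAt_const.congr h2.symm
  · push Not at hex
    obtain ⟨a, ha⟩ := hA
    refine ⟨a, ha, ?_⟩
    have hAc : (A \ {a}).Countable := hf.mono fun x hx => hex x hx.1
    have hO : IsOpen (A \ {a})ᶜ := (hX _ hAc).isOpen_compl
    have hcont : ∀ᶠ z in 𝓝[A] a, f z = f a := by
      rw [eventually_nhdsWithin_iff]
      filter_upwards [hO.mem_nhds (show a ∈ (A \ {a})ᶜ from fun h => h.2 rfl)] with z hz hzA
      have hza : z = a := by
        by_contra hne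
        exact hz ⟨hzA, hne⟩
      rw [hza]
    exact tendsto_const_nhds.congr' (hcont.mono fun z hz => hz.symm)

/-- The space of all sets of reals; `x` and `y` are close when they agree on a countable set. -/
def Sp : Type := ℝ → Prop

/-- The topology on `Sp`: `U` is open if with every point `x` it contains all points that agree
with `x` on some countable set of reals. -/
instance : TopologicalSpace Sp where
  IsOpen U := ∀ x ∈ U, ∃ C : Set ℝ, C.Countable ∧ ∀ y : Sp, (∀ r ∈ C, (y r ↔ x r)) → y ∈ U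
  isOpen_univ := fun _ _ => ⟨∅, countable_empty, fun _ _ => mem_univ _⟩
  isOpen_inter := by
    rintro U V hU hV x ⟨hxU, hxV⟩
    obtain ⟨C, hC, hCU⟩ := hU x hxU
    obtain ⟨D, hD, hDV⟩ := hV x hxV
    exact ⟨C ∪ D, hC.union hD, fun y hy => ⟨hCU y fun r hr => hy r (Or.inl hr),
      hDV y fun r hr => hy r (Or.inr hr)⟩⟩
  isOpen_sUnion := by
    rintro 𝒰 h𝒰 x ⟨U, hU, hxU⟩
    obtain ⟨C, hC, hCU⟩ := h𝒰 U hU x hxU
    exact ⟨C, hC, fun y hy => ⟨U, hU, hCU y hy⟩⟩

theorem Sp.isOpen_iff {U : Set Sp} : IsOpen U ↔ ∀ x ∈ U, ∃ C : Set ℝ, C.Countable ∧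
    ∀ y : Sp, (∀ r ∈ C, (y r ↔ x r)) → y ∈ U := Iff.rfl

/-- The points that agree with `x` on `C`. -/
def cyl (C : Set ℝ) (x : Sp) : Set Sp := {y | ∀ r ∈ C, (y r ↔ x r)}

theorem isClopen_cyl {C : Set ℝ} (hC : C.Countable) (x : Sp) : IsClopen (cyl C x) := by
  constructor
  · rw [← isOpen_compl_iff, Sp.isOpen_iff]
    intro y hy
    refine ⟨C, hC, fun z hz hzx => hy fun r hr => ?_⟩
    exact (hz r hr).symm.trans (hzx r hr)
  · rw [Sp.isOpen_iff]
    intro y hy
    exact ⟨C, hC, fun z hz r hr => (hz r hr).trans (hy r hr)⟩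

theorem mem_cyl (C : Set ℝ) (x : Sp) : x ∈ cyl C x := fun _ _ => Iff.rfl

instance : T2Space Sp := by
  refine ⟨fun x y hxy => ?_⟩
  have hex : ∃ r, ¬ (x r ↔ y r) := by
    by_contra hno
    push Not at hno
    exact hxy (funext fun r => propext (hno r))
  obtain ⟨r, hr⟩ := hex
  refine ⟨cyl {r} x, cyl {r} y, (isClopen_cyl (countable_singleton r) x).isOpen,
    (isClopen_cyl (countable_singleton r) y).isOpen, mem_cyl _ _, mem_cyl _ _, ?_⟩
  rw [Set.disjoint_left]
  intro z hzx hzy
  exact hr ((hzx r rfl).symm.trans (hzy r rfl))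

theorem Sp.isClosed_of_countable {S : Set Sp} (hS : S.Countable) : IsClosed S := by
  rw [← isOpen_compl_iff, Sp.isOpen_iff]
  intro x hx
  have hex : ∀ s : Sp, ∃ r, s ∈ S → ¬ (s r ↔ x r) := by
    intro s
    by_cases hs : s ∈ S
    · by_contra hno
      push Not at hno
      have h1 : s = x := funext fun r => propext (hno r).2
      exact hx (h1 ▸ hs)
    · exact ⟨0, fun h => absurd h hs⟩
  choose ρ hρ using hex
  refine ⟨ρ '' S, hS.image _, fun y hy hyS => ?_⟩
  exact hρ y hyS (hy (ρ y) (mem_image_of_mem _ hyS))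

theorem nw_Sp_le : nw Sp ≤ Cardinal.continuum := by
  refine max_le Cardinal.aleph0_le_continuum ?_
  let F : (ℕ → ℝ) × (ℕ → Bool) → Set Sp := fun a => {y : Sp | ∀ n, y (a.1 n) ↔ a.2 n = true}
  have hnet : IsNetwork (range F) := by
    intro x U hU hx
    obtain ⟨C, hC, hCU⟩ := Sp.isOpen_iff.mp hU x hx
    classical
    obtain ⟨s, hs⟩ := (hC.insert 0).exists_eq_range (insert_nonempty 0 C)
    refine ⟨F (s, fun n => decide (x (s n))), mem_range_self _, ?_, ?_⟩
    · intro n
      simp
    · intro y hy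
      refine hCU y fun r hr => ?_
      have h1 : r ∈ range s := by
        rw [← hs]
        exact mem_insert_of_mem _ hr
      obtain ⟨n, rfl⟩ := h1
      have h2 := hy n
      simpa using h2
  have h1 : sInf {c | ∃ N : Set (Set Sp), IsNetwork N ∧ Cardinal.mk N = c} ≤
      Cardinal.mk (range F) := csInf_le' ⟨range F, hnet, rfl⟩
  refine h1.trans (Cardinal.mk_range_le.trans ?_)
  simp [Cardinal.mk_real]

/-- **Negative answer to Q1**: there are a (zero-dimensional Hausdorff) space `X` and a compact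
convex set `K` of scatteredly continuous functions on `X` with `w(K) > nw(X)`. -/
theorem result : ∃ (X : Type) (_ : TopologicalSpace X) (K : Set (X → ℝ)),
    T2Space X ∧
    (∀ (x : X) (U : Set X), IsOpen U → x ∈ U → ∃ V : Set X, IsClopen V ∧ x ∈ V ∧ V ⊆ U) ∧
    IsCompact K ∧ Convex ℝ K ∧ (∀ f ∈ K, ScatteredlyContinuous f) ∧ nw X < weight K := by
  refine ⟨Sp, inferInstance, Mass Sp, inferInstance, ?_, isCompact_Mass Sp, convex_Mass Sp, ?_, ?_⟩
  · intro x U hU hx
    obtain ⟨C, hC, hCU⟩ := Sp.isOpen_iff.mp hU x hx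
    exact ⟨cyl C x, isClopen_cyl hC x, mem_cyl C x, hCU⟩
  · intro f hf
    exact sc_of_countable_support (fun S hS => Sp.isClosed_of_countable hS) (countable_support hf)
  · refine nw_Sp_le.trans_lt (lt_of_lt_of_le ?_ (card_le_weight Sp))
    have h1 : Cardinal.mk Sp = 2 ^ Cardinal.continuum := by
      show Cardinal.mk (ℝ → Prop) = _
      simp [Cardinal.mk_real]
    rw [h1]
    exact Cardinal.cantor _

end Pool.Agent.Results.MP_3f847c_gt.WeightExceedsNetwork
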